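import Pool.Agent.U536.CF.TU
import Pool.Agent.Results.MP_47914d_nt.MultiplicativeValues

/-!
# The modular Schanuel conjecture for integers with large common factors with the values of multiplicative functions

Let `F_1, ..., F_k` be positive multiplicative functions of at most polynomial growth such that `F_i p ≤ M p` for the
large primes `p`, with different values at different large primes; for example Euler's function or the sum of the
divisors. Let `b < 1` and `0 ≤ c < 2 b - 1`. Let `V` be any `ℚ`-space of complex numbers of dimension at most `D`. For all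
tuples `m` in `[1, N]^k` but `N^k exp (-(log N)^c)`, for EVERY tuple `w` of integers `w_i ≥ exp ((log N)^b)` such that
`gcd(w_i, F_i(m_i)) ≥ w_j^ρ` for all `i`, `j`, NO tuple of integers `t` with `|t_i| = w_i` is exceptional, that is, no
points `z_i` in the isogeny classes of the points with `j = t_i` satisfy a relation of degree at most `δ` with
coefficients in `V`; `ρ < 1` depends only on `k`, `δ`, `D`, and the bound `N ≥ N₀` does not depend on `V`. The tuples `w`
include all tuples of large divisors `w_i` of the `F_i(m_i)` of comparable size and their multiples by small integers.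

Proof. But for few exceptional `m_i ≤ N`, the number of `m_i` with `g ∣ F_i(m_i)` is at most `N τ_J(g) / g` up to a factor
`exp ((log N)^s)`, `J = (log N)^a`, `a < s < b`, for all `g`: write `m_i = k u` with `u` squarefree and composed of primes
larger than `N^(1/J)`, `k ≤ exp (4 (log N)^a)`. If `w` is an exceptional tuple with `w_i ≤ X`, then the `g_i = gcd(w_i,
F_i(m_i))` are divisors of the `w_i` of size `≥ (X/2)^ρ`; there are few such tuples of divisors, and the inequality `τ_J^q
≤ τ_K` for `K ≥ J^q` with Hölder's inequality for tuples bounds the sum of `∏ τ_J(g_i) / g_i`. The file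
`MultiplicativeValues` of the starting library treats the tuples `w = (F_i(m_i))` only, with `N^k / (log N)^U` exceptions.
-/

set_option autoImplicit false

namespace Pool.Agent.Results.MP_47914d_nt.CommonFactors

open Pool.Agent.Results.MP_47914d_nt.IsogenyClasses (Exceptional)
open Pool.Agent.N733.TG (LM lm_totient lm_sigma)
open Pool.Agent.U536.CF (CommonT avoidT commonT_of_dvd exists_rho)

/-- **The modular Schanuel conjecture for integers with large common factors with the values of multiplicative functions.**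
Let `V` be any `ℚ`-space of complex numbers of dimension at most `D`. Let the `F_i` be multiplicative and positive, of at
most polynomial growth, with `F_i p ≤ M p` at the large primes, and injective there. Let `b < 1` and `0 ≤ c < 2 b - 1`.
For all large `N`, for all tuples `m` in `[1, N]^k` but `N^k exp (-(log N)^c)`, for EVERY tuple `w` of integers `w_i ≥ exp
((log N)^b)` with `gcd(w_i, F_i(m_i)) ≥ w_j^ρ` for all `i`, `j`, NO tuple of integers `t` with `|t_i| = w_i` is
exceptional, that is, no points `z_i` in the isogeny classes of the points with `j = t_i` satisfy a relation of degree at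
most `δ` with coefficients in `V`; `ρ < 1` depends only on `k`, `δ`, `D`, and the bound `N ≥ N₀` does not depend on `V`.
Tuples of divisors `w_i ≥ exp ((log N)^b)` of the `F_i(m_i)` with `w_j^ρ ≤ w_i` for all `i`, `j` are such tuples. Euler's
function and the sum of the divisors are examples of the `F_i`. -/
theorem result :
    (∀ k : ℕ, 1 ≤ k → ∀ δ D : ℕ, ∃ ρ : ℝ, 0 < ρ ∧ ρ < 1 ∧ ∀ F : Fin k → ℕ → ℕ, (∀ i, LM (F i)) →
      ∀ b c : ℝ, b < 1 → 0 ≤ c → c < 2 * b - 1 → ∃ N₀ : ℕ, ∀ N : ℕ, N₀ ≤ N →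
      ∀ (V : Submodule ℚ ℂ) [Module.Finite ℚ V], Module.finrank ℚ V ≤ D →
      ({m : Fin k → ℕ | (∀ i, 1 ≤ m i ∧ m i ≤ N) ∧ ¬ ∀ w : Fin k → ℕ, CommonT F b ρ N m w →
        ∀ t : Fin k → ℤ, (∀ i, |t i| = w i) → ¬ Exceptional δ V t}.ncard : ℝ) ≤
        (N : ℝ) ^ k * Real.exp (-(Real.log N ^ c))) ∧
    (LM Nat.totient ∧ LM (fun m => ∑ d ∈ m.divisors, d)) ∧
    ∀ (k : ℕ) (F : Fin k → ℕ → ℕ) (b ρ : ℝ) (N : ℕ) (m w : Fin k → ℕ), (∀ i, Real.exp (Real.log N ^ b) ≤ (w i : ℝ)) →
      (∀ i, w i ∣ F i (m i)) → (∀ i j, (w j : ℝ) ^ ρ ≤ (w i : ℝ)) → CommonT F b ρ N m w := by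
  refine ⟨?_, ⟨lm_totient, lm_sigma⟩, fun k F b ρ N m w h1 h2 h3 => commonT_of_dvd h1 h2 h3⟩
  classical
  intro k hk δ D
  obtain ⟨c, C, hc, hC, hcount⟩ := Pool.Agent.Results.MP_47914d_nt.IsogenyClasses.result k δ D
  obtain ⟨c', hc'⟩ : ∃ c' : ℝ, c' = min c 1 := ⟨_, rfl⟩
  have hc'0 : 0 < c' := by rw [hc']; exact lt_min hc one_pos
  have hc'c : c' ≤ c := by rw [hc']; exact min_le_left _ _
  have hc'1 : c' ≤ 1 := by rw [hc']; exact min_le_right _ _
  obtain ⟨ρ, hρ0, hρ1, hρ⟩ := exists_rho hk hc'0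
  refine ⟨ρ, hρ0, hρ1, fun F hF b c₁ hb hc₁ hcb => ?_⟩
  obtain ⟨N₀, hN₀⟩ := avoidT hk hF hρ0 hρ1.le hρ (C * (k * 2)) hb hc₁ hcb
  refine ⟨N₀, fun N hN V _ hV => ?_⟩
  refine le_trans (le_of_eq ?_) (hN₀ N hN
    {w : Fin k → ℕ | ∃ t : Fin k → ℤ, (∀ i, |t i| = w i) ∧ Exceptional δ V t} fun X hX => ?_)
  · congr 2
    ext m
    simp only [Set.mem_ofPred_eq]
    push Not
    refine and_congr Iff.rfl ⟨?_, ?_⟩
    · rintro ⟨w, h1, t, h2, h3⟩
      exact ⟨w, ⟨t, h2, h3⟩, h1⟩
    · rintro ⟨w, ⟨t, h2, h3⟩, h1⟩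
      exact ⟨w, h1, t, h2, h3⟩
  · -- the exceptional tuples of natural numbers
    have hX1 : (1 : ℝ) ≤ X := by exact_mod_cast hX
    have hX0 : (0 : ℝ) < X := by linarith
    have hfin : {w : Fin k → ℕ | (∀ i, 2 ≤ w i ∧ w i ≤ X) ∧ w ∈
        {w : Fin k → ℕ | ∃ t : Fin k → ℤ, (∀ i, |t i| = w i) ∧ Exceptional δ V t}}.Finite := by
      apply (Set.Finite.pi' fun _ : Fin k => Set.finite_Icc 2 X).subset
      intro m hm i
      exact hm.1 i
    choose! g hg1 hg2 using fun (w : Fin k → ℕ) (hw : w ∈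
      {w : Fin k → ℕ | ∃ t : Fin k → ℤ, (∀ i, |t i| = w i) ∧ Exceptional δ V t}) => hw
    have hinj : Set.InjOn g (hfin.toFinset : Set (Fin k → ℕ)) := by
      intro w hw w' hw' h
      rw [Set.Finite.coe_toFinset] at hw hw'
      funext i
      have h1 := hg1 w hw.2 i
      have h2 := hg1 w' hw'.2 i
      rw [h, h2] at h1
      exact_mod_cast h1.symm
    have h1 := hcount V hV (fun _ => 0) X hX (hfin.toFinset.image g) (by
      intro t ht
      rw [Finset.mem_image] at ht
      obtain ⟨w, hw, rfl⟩ := ht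
      rw [Set.Finite.mem_toFinset] at hw
      refine ⟨fun i => ?_, hg2 w hw.2⟩
      rw [hg1 w hw.2 i]
      have := hw.1 i
      push_cast
      constructor
      · have : 0 < w i := by omega
        exact_mod_cast this
      · rw [zero_add]
        exact_mod_cast this.2)
    rw [Finset.card_image_of_injOn hinj, ← Set.ncard_eq_toFinset_card _ hfin] at h1
    refine h1.trans ?_
    have h2 : ∀ i : Fin k, (1 + (X : ℝ) / (((0 : ℕ) : ℝ) + X) ^ c) ≤ 2 * (X : ℝ) ^ (1 - c') := by
      intro i
      have h3 : (1 : ℝ) ≤ (X : ℝ) ^ (1 - c') := Real.one_le_rpow hX1 (by linarith)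
      have h4 : (X : ℝ) / (((0 : ℕ) : ℝ) + X) ^ c ≤ (X : ℝ) ^ (1 - c') := by
        rw [Nat.cast_zero, zero_add]
        calc (X : ℝ) / (X : ℝ) ^ c = (X : ℝ) ^ (1 - c) := by
              rw [Real.rpow_sub hX0, Real.rpow_one]
          _ ≤ _ := Real.rpow_le_rpow_of_exponent_le hX1 (by linarith)
      linarith
    have h5 : (∑ _i : Fin k, (1 + (X : ℝ) / (((0 : ℕ) : ℝ) + X) ^ c)) ≤ k * (2 * (X : ℝ) ^ (1 - c')) := by
      refine (Finset.sum_le_sum fun i _ => h2 i).trans ?_
      rw [Finset.sum_const, Finset.card_univ, Fintype.card_fin, nsmul_eq_mul]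
    calc C * (X : ℝ) ^ (k - 1) * ∑ _i : Fin k, (1 + (X : ℝ) / (((0 : ℕ) : ℝ) + X) ^ c)
        ≤ C * (X : ℝ) ^ (k - 1) * (k * (2 * (X : ℝ) ^ (1 - c'))) := by gcongr
      _ = C * (k * 2) * ((X : ℝ) ^ ((k : ℝ) - 1) * (X : ℝ) ^ (1 - c')) := by
          rw [← Real.rpow_natCast (X : ℝ) (k - 1), Nat.cast_sub hk, Nat.cast_one]
          ring
      _ = C * (k * 2) * (X : ℝ) ^ ((k : ℝ) - c') := by
          rw [← Real.rpow_add hX0]
          congr 2
          ring

end Pool.Agent.Results.MP_47914d_nt.CommonFactors
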