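import Pool.Agent.U534.IsoInt
import Pool.Agent.U534.CountInt

/-!
# The modular Schanuel conjecture for the Hecke orbits above a set of integers of upper Banach density one

Let `j` be the modular invariant, `w_1, …, w_n` points of the upper half-plane for which the numbers `t_i = j(w_i)` are
distinct integers, and `z_i = (a_i w_i + b_i) / (c_i w_i + d_i)` any points equivalent to them under `GL_2^+(ℚ)`. The numbers
`j(z_i)` are algebraic; unless `z_i` is a CM point or two of the points are equivalent, the modular Schanuel conjecture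
predicts that `z_1, …, z_n` are algebraically independent.

We construct ONE infinite set `𝒯 = T_0 ∪ T_1 ∪ ⋯` of integers for which this holds asymptotically for all finite subsets
and for **all** points of the full `GL_2^+(ℚ)`-orbits above them. The set `T_j` contains all elements of a window
`[a_j, b_j]` with the exception of a proportion of at most `1 / (j + 1)` (so `𝒯` has upper Banach density one). More
generally, let `A_0, A_1, …` be any clustered sets of integers (arbitrarily thin sets are possible); then `T_j` contains all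
elements of `A_j ∩ [a_j, b_j]` with the exception of a proportion of at most `1 / (j + 1)`.

* Let `F` be any countable set of complex numbers, for instance the set of all periods, or of all numbers which are algebraic
  over the field generated by all values `j(x)` and `e^x` at algebraic `x`. There is such a set `𝒯` with the following
  property. For every `n` and every nonzero polynomial `P` in `n` variables with coefficients in `F`, of any degree, there is
  `l` such that `P(z_1, …, z_n) ≠ 0` for all points `z_i` isogenous to points with invariants `t_i`, where `t_1, …, t_n` are any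
  distinct elements of `T_l ∪ T_(l + 1) ∪ ⋯`. There is no bound for the degrees of the isogenies.
* Let `V_0 ⊆ V_1 ⊆ ⋯` be any finite dimensional `ℚ`-vector spaces of complex numbers and `δ_0 ≤ δ_1 ≤ ⋯` any integers
  (they may grow as fast as one likes). There is such a set `𝒯` such that for all `l`, for all choices of a point `z_t`
  isogenous to a point with invariant `t` for every `t` in `𝒯`, the numbers `z_t`, `t ∈ T_l ∪ T_(l + 1) ∪ ⋯`, satisfy no
  nontrivial polynomial relation in any number of variables, of degree at most `δ_l` in each variable, with coefficients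
  in `K V_l`, `K` any number field of degree at most `δ_l`.

The library theorem `MP_47914d_nt.IsogenyWindows` (`Pool.Agent.Y120.K.winI`) treats `k` distinct integers of one short
window. `MP_ede373_nt.AlmostFullWindows` has a similar theorem for `z`, `j'(z)`, `j''(z)` at the points with integral
invariants themselves.
-/

set_option autoImplicit false

namespace Pool.Agent.Results.MP_47914d_nt.HeckeOrbits

/-- the normalised Eisenstein series of weight `4` -/
noncomputable def E4 (τ : ℂ) : ℂ :=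
  1 + 240 * ∑' m : ℕ, ((ArithmeticFunction.sigma 3 (m + 1) : ℕ) : ℂ) *
    Complex.exp (2 * (Real.pi : ℂ) * Complex.I * ((m : ℂ) + 1) * τ)

/-- the normalised Eisenstein series of weight `6` -/
noncomputable def E6 (τ : ℂ) : ℂ :=
  1 - 504 * ∑' m : ℕ, ((ArithmeticFunction.sigma 5 (m + 1) : ℕ) : ℂ) *
    Complex.exp (2 * (Real.pi : ℂ) * Complex.I * ((m : ℂ) + 1) * τ)

/-- the modular invariant `j = q⁻¹ + 744 + 196884 q + ⋯` -/
noncomputable def J (τ : ℂ) : ℂ := 1728 * E4 τ ^ 3 / (E4 τ ^ 3 - E6 τ ^ 2)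

/-- `z` is equivalent under `GL_2^+(ℚ)` to a point `w` of the upper half-plane with `j(w) = t`. -/
def Isogenous (t : ℤ) (z : ℂ) : Prop :=
  ∃ w : ℂ, 0 < w.im ∧ J w = t ∧ ∃ a b c d : ℚ, 0 < a * d - b * c ∧ z = ((a : ℂ) * w + b) / ((c : ℂ) * w + d)

/-- `A` is clustered: for all `E`, `M`, `N` there is a window `[a, a + H]` of integers of absolute value at least
`(H + 2) ^ E + N` which contains more than `M` elements of `A`. -/
def Clustered (A : Set ℤ) : Prop :=
  ∀ E M N : ℕ, ∃ (a : ℤ) (H : ℕ), (∀ t ∈ Set.Icc a (a + H), ((H : ℤ) + 2) ^ E + N ≤ |t|) ∧ M < (A ∩ Set.Icc a (a + H)).ncard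

/-- The finite sets `T j` are disjoint, and `T j` contains all elements of `A j` in a window `[a, b]`, `|t| ≥ j` for all `t`
of the window, up to a proportion of at most `1 / (j + 1)`; it has at least `j` elements. -/
def AlmostFull (A : ℕ → Set ℤ) (T : ℕ → Finset ℤ) : Prop :=
  (∀ i j, i ≠ j → Disjoint (T i) (T j)) ∧ ∀ j : ℕ, ∃ a b : ℤ, (∀ t ∈ Set.Icc a b, (j : ℤ) ≤ |t|) ∧
    (T j : Set ℤ) ⊆ A j ∩ Set.Icc a b ∧ j ≤ (T j).card ∧
    (j + 1) * ((A j ∩ Set.Icc a b) \ T j).ncard ≤ (A j ∩ Set.Icc a b).ncard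

/-- `z` chooses points isogenous to points above the elements of the sets `T j`. -/
def Above (T : ℕ → Finset ℤ) (z : ℤ → ℂ) : Prop := ∀ j, ∀ t ∈ T j, Isogenous t (z t)

section proofs

lemma J_eq : J = Pool.Agent.TH21.MS.jj := by
  have h4 : E4 = Pool.Agent.TH21.MS.E4 := funext Pool.Agent.Y120.J.E4_same
  have h6 : E6 = Pool.Agent.TH21.MS.E6 := funext Pool.Agent.Y120.J.E6_same
  funext τ
  unfold J Pool.Agent.TH21.MS.jj
  rw [h4, h6]

lemma mem_Yi {t : ℤ} {z : ℂ} (h : Isogenous t z) : (fun _ : Unit => z) ∈ Pool.Agent.U534.Tens.Yi t := by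
  obtain ⟨w, h0, h1, a, b, c, d, h2, h3⟩ := h
  refine ⟨⟨w, h0⟩, ?_, a, b, c, d, h2.ne', h3⟩
  rw [← J_eq]
  exact h1

/-- the integers are clustered -/
theorem clustered_univ : Clustered Set.univ := by
  intro E M N
  refine ⟨((M + 2) ^ E + N : ℕ), M, fun t ht => ?_, ?_⟩
  · obtain ⟨h1, -⟩ := ht
    push_cast at h1
    have h2 : (0 : ℤ) ≤ ((M : ℤ) + 2) ^ E := by positivity
    rw [abs_of_nonneg (by omega)]
    exact h1
  · rw [Set.univ_inter]
    have h1 : (Set.Icc (((M + 2) ^ E + N : ℕ) : ℤ) (((M + 2) ^ E + N : ℕ) + M)).ncard = M + 1 := by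
      rw [← Finset.coe_Icc, Set.ncard_coe_finset, Int.card_Icc]
      omega
    rw [h1]
    omega

theorem main (A : ℕ → Set ℤ) (hA : ∀ j, Clustered (A j)) (V : ℕ → Submodule ℚ ℂ) (hVf : ∀ j, Module.Finite ℚ (V j))
    (hV : Monotone V) (δ : ℕ → ℕ) (hδ : Monotone δ) :
    ∃ T : ℕ → Finset ℤ, AlmostFull A T ∧ ∀ y : ℤ → Unit → ℂ, (∀ j, ∀ t ∈ T j, y t ∈ Pool.Agent.U534.Tens.Yi t) →
      ∀ (l : ℕ) (K : IntermediateField ℚ ℂ), FiniteDimensional ℚ K → Module.finrank ℚ K ≤ δ l →
      ∀ P : MvPolynomial (ℤ × Unit) ℂ, P ≠ 0 → (∀ v ∈ P.vars, ∃ j ≥ l, v.1 ∈ T j) →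
        (∀ v, P.degreeOf v ≤ δ l) → (∀ s, P.coeff s ∈ Submodule.span K (V l : Set ℂ)) →
        MvPolynomial.eval (fun v => y v.1 v.2) P ≠ 0 := by
  obtain ⟨a, b, T, h1, h2, h3⟩ := Pool.Agent.U534.Tens.isogeny (A := A) hA hVf hV hδ
  exact ⟨T, ⟨h2, fun j => ⟨a j, b j, h1 j⟩⟩, h3⟩

lemma coeff_unit {ι : Type} {S : Set ℂ} (hS : (0 : ℂ) ∈ S) {P : MvPolynomial ι ℂ} (hP : ∀ s, P.coeff s ∈ S)
    (s : ι × Unit →₀ ℕ) : (MvPolynomial.rename (fun i : ι => (i, ())) P).coeff s ∈ S := by
  classical
  have hinj : Function.Injective (fun i : ι => (i, ())) := fun i i' h => (Prod.ext_iff.1 h).1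
  by_cases hs : ∃ u : ι →₀ ℕ, u.mapDomain (fun i : ι => (i, ())) = s
  · obtain ⟨u, rfl⟩ := hs
    rw [MvPolynomial.coeff_rename_mapDomain _ hinj]
    exact hP _
  · push Not at hs
    rw [MvPolynomial.coeff_rename_eq_zero _ P s fun u hu => absurd hu (hs u)]
    exact hS

end proofs

/-- **Main result.** -/
theorem result :
    -- all integers are allowed
    Clustered Set.univ ∧
    ∀ A : ℕ → Set ℤ, (∀ j, Clustered (A j)) →
    -- all polynomials over a countable set of constants
    (∀ F : Set ℂ, F.Countable → ∃ T : ℕ → Finset ℤ, AlmostFull A T ∧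
      ∀ (n : ℕ) (P : MvPolynomial (Fin n) ℂ), P ≠ 0 → (∀ s, P.coeff s ∈ F) → ∃ l : ℕ,
        ∀ z : ℤ → ℂ, Above T z → ∀ t : Fin n → ℤ, Function.Injective t → (∀ i, ∃ j ≥ l, t i ∈ T j) →
          MvPolynomial.eval (fun i => z (t i)) P ≠ 0) ∧
    -- given degrees and constants
    ∀ V : ℕ → Submodule ℚ ℂ, (∀ j, Module.Finite ℚ (V j)) → Monotone V → ∀ δ : ℕ → ℕ, Monotone δ →
      ∃ T : ℕ → Finset ℤ, AlmostFull A T ∧ ∀ z : ℤ → ℂ, Above T z →
      ∀ (l : ℕ) (K : IntermediateField ℚ ℂ), FiniteDimensional ℚ K → Module.finrank ℚ K ≤ δ l →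
      ∀ P : MvPolynomial ℤ ℂ, P ≠ 0 → (∀ t ∈ P.vars, ∃ j ≥ l, t ∈ T j) →
        (∀ t, P.degreeOf t ≤ δ l) → (∀ s, P.coeff s ∈ Submodule.span K (V l : Set ℂ)) →
        MvPolynomial.eval z P ≠ 0 := by
  classical
  refine ⟨clustered_univ, fun A hA => ⟨fun F hF => ?_, fun V hVf hV δ hδ => ?_⟩⟩
  · obtain ⟨T, hT, h⟩ := Pool.Agent.U534.Tens.countable_form (Y := Pool.Agent.U534.Tens.Yi) (G := AlmostFull A)
      (fun V hVf hV δ hδ => main A hA V hVf hV δ hδ) (insert 0 F) (hF.insert 0)
    refine ⟨T, hT, fun n P hP hPc => ?_⟩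
    have hinj : Function.Injective (fun i : Fin n => (i, ())) := fun i i' h => (Prod.ext_iff.1 h).1
    obtain ⟨l, hl⟩ := h n (MvPolynomial.rename (fun i : Fin n => (i, ())) P)
      (fun h0 => hP (MvPolynomial.rename_injective _ hinj (by rw [h0, map_zero])))
      (coeff_unit (Set.mem_insert _ _) fun s => Set.mem_insert_of_mem _ (hPc s))
    refine ⟨l, fun z hz t ht htT => ?_⟩
    have h1 := hl (fun t _ => z t) (fun j t ht => mem_Yi (hz j t ht)) t ht htT
    rw [MvPolynomial.eval_rename] at h1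
    exact h1
  · obtain ⟨T, hT, h⟩ := main A hA V hVf hV δ hδ
    refine ⟨T, hT, fun z hz l K hK hKD P hP hPv hPd hPc => ?_⟩
    have hinj : Function.Injective (fun t : ℤ => (t, ())) := fun i i' h => (Prod.ext_iff.1 h).1
    have h1 := h (fun t _ => z t) (fun j t ht => mem_Yi (hz j t ht)) l K hK hKD (MvPolynomial.rename (fun t : ℤ => (t, ())) P)
      (fun h0 => hP (MvPolynomial.rename_injective _ hinj (by rw [h0, map_zero])))
      (fun v hv => by
        obtain ⟨w, hw, hwv⟩ := Finset.mem_image.1 (MvPolynomial.vars_rename _ P hv)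
        rw [← hwv]
        exact hPv w hw)
      (fun v => by
        have h2 : v = (fun t : ℤ => (t, ())) v.1 := rfl
        rw [h2, MvPolynomial.degreeOf_rename_of_injective hinj]
        exact hPd _)
      (coeff_unit (Submodule.zero_mem _) hPc)
    rw [MvPolynomial.eval_rename] at h1
    exact h1

end Pool.Agent.Results.MP_47914d_nt.HeckeOrbits
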