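import Pool.Agent.U405.RS.G5
import Pool.Agent.Results.MP_47914d_nt.IsogenyClasses

/-!
# The modular Schanuel conjecture over values of multiplicative functions at shifted primes and in short intervals

Let `F_1, …, F_k` be positive multiplicative functions of at most polynomial growth which for each `a ≥ 1` are injective at the
powers `p ^ a` of the large primes and at most `M p ^ a` there; for example Euler's function or the sum of the divisors. Let `w_i` be points of the upper half-plane with `j(w_i) = ± F_i(m_i)` (any signs), and let `z_i` be ANY points equivalent to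
`w_i` under `GL_2^+(ℚ)`. We show that for almost all `m` in products of thin sets the numbers `z_1, …, z_k` do not satisfy any
polynomial relation of degree at most `δ` with coefficients in a given `ℚ`-vector space `V` of complex numbers of dimension at
most `D`, for all signs and all `z_i`, uniformly in `V`.

The starting theorem `MultiplicativeValues` of this problem treats the average over all tuples `m ∈ [1, N]^k`. Here each `m_i` runs
over a thin set: the shifted primes `p + a_i`, `p ≤ x`, for an arbitrary integer `a_i`, or an interval `(u, u + h]` with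
`x^τ ≤ h ≤ x`, where `u ≤ x` and `1 - c / k < τ ≤ 1`; both kinds can be mixed. The tuples of values `(F_1(m_1), …, F_k(m_k))` are taken with large and
uneven multiplicities, so that the size of the exceptional set says nothing about them.

Proof. Own tool `Pool.Agent.U405.RS`. A thin set `S` has at most `B g^ω(n) |S| / n` multiples of `n` for every `n ≤ x^δ` (for the
shifted primes by the Brun-Titchmarsh inequality of the library). Write `m_i = n_i w_i` with `n_i` composed of the primes
`≤ z = x^(1 / J)`, `J` a small multiple of `log log x`. By Rankin's method one has `n_i ≤ x^η` for most `m_i` in `S_i`; and `w_i` has at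
most `J` prime factors and exponents `≤ J`, so that it is determined by `F_i(w_i)` up to `x^o(1)` possibilities. A slab of the
exceptional set is then covered by the fibres over one coordinate, and the saving `X^c` of the exceptional set is larger than the loss
`x^(k (1 - τ))` from the short intervals. The bound for the exceptional tuples of integers is the starting theorem `IsogenyClasses`.
-/

set_option autoImplicit false

namespace Pool.Agent.Results.MP_47914d_nt.ThinTuples

open Pool.Agent.U405.RS
open Pool.Agent.Results.MP_47914d_nt.IsogenyClasses (Exceptional)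

/-- **The modular Schanuel conjecture over thin sets.** For all `k ≥ 1`, `δ`, `D` there is `c > 0` such that for all `F_1, …, F_k` in
the class `PM`, all `U` and, uniformly, all `ℚ`-subspaces `V` of `ℂ` of dimension at most `D`, in the sense of `ThinAll c F U`
(with a saving of `(log x)^U`, uniformly in the parameter, for almost all `m` in all products `S_1 × ⋯ × S_k` of sets of shifted
primes `p + a_i`, `p ≤ x`, and intervals `(u, u + h]`, `u ≤ x`, `x^τ ≤ h ≤ x`, whenever `0 < τ ≤ 1`, `k τ > k - c`)
all `F_i(m_i)` are at least `2` and NO tuple of integers `t` with `|t_i| = F_i(m_i)` is exceptional, that is, no points `z_i` in the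
isogeny classes of the points with `j(w_i) = t_i` satisfy a relation of degree at most `δ` with coefficients in `V`. Euler's
function, the sum of the divisors and the identity are in the class. -/
theorem result :
    (∀ k δ D : ℕ, 1 ≤ k → ∃ c : ℝ, 0 < c ∧ ∀ F : Fin k → ℕ → ℕ, (∀ i, PM (F i)) → ∀ U : ℕ,
      ThinAll c F U (fun (V : Submodule ℚ ℂ) (v : Fin k → ℕ) => (Module.Finite ℚ V ∧ Module.finrank ℚ V ≤ D) →
        (∀ i, 2 ≤ v i) ∧ ∀ t : Fin k → ℤ, (∀ i, |t i| = v i) → ¬ Exceptional δ V t)) ∧
    (PM Nat.totient ∧ PM (fun m => ∑ d ∈ m.divisors, d) ∧ PM (fun m => m)) := by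
  classical
  refine ⟨fun k δ D hk => ?_, examplesT⟩
  obtain ⟨c, C, hc, hC, hcount⟩ := Pool.Agent.Results.MP_47914d_nt.IsogenyClasses.result k δ D
  obtain ⟨c', hc'⟩ : ∃ c' : ℝ, c' = min c 1 := ⟨_, rfl⟩
  have hc'0 : 0 < c' := by rw [hc']; exact lt_min hc one_pos
  have hc'c : c' ≤ c := by rw [hc']; exact min_le_left _ _
  have hc'1 : c' ≤ 1 := by rw [hc']; exact min_le_right _ _
  refine ⟨c', hc'0, fun F hF U => thinAll_if hk hF hc'0 (C * (k * 2))
    (fun V : Submodule ℚ ℂ => Module.Finite ℚ V ∧ Module.finrank ℚ V ≤ D)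
    (fun (V : Submodule ℚ ℂ) (v : Fin k → ℕ) => ∀ t : Fin k → ℤ, (∀ i, |t i| = v i) → ¬ Exceptional δ V t)
    (fun V hV X hX => ?_) U⟩
  obtain ⟨hVf, hVD⟩ := hV
  haveI := hVf
  have hX1 : (1 : ℝ) ≤ X := by exact_mod_cast hX
  have hX0 : (0 : ℝ) < X := by linarith
  have hfin : {w : Fin k → ℕ | (∀ i, 2 ≤ w i ∧ w i ≤ X) ∧
      ¬ ∀ t : Fin k → ℤ, (∀ i, |t i| = w i) → ¬ Exceptional δ V t}.Finite := by
    apply (Set.Finite.pi' fun _ : Fin k => Set.finite_Icc 2 X).subset
    intro m hm i
    exact hm.1 i
  have hex : ∀ w : Fin k → ℕ, (¬ ∀ t : Fin k → ℤ, (∀ i, |t i| = w i) → ¬ Exceptional δ V t) →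
      ∃ t : Fin k → ℤ, (∀ i, |t i| = w i) ∧ Exceptional δ V t := by
    intro w hw
    push Not at hw
    exact hw
  choose! g hg1 hg2 using hex
  have hinj : Set.InjOn g (hfin.toFinset : Set (Fin k → ℕ)) := by
    intro w hw w' hw' h
    rw [Set.Finite.coe_toFinset] at hw hw'
    funext i
    have h1 := hg1 w hw.2 i
    have h2 := hg1 w' hw'.2 i
    rw [h, h2] at h1
    exact_mod_cast h1.symm
  have h1 := hcount V hVD (fun _ => 0) X hX (hfin.toFinset.image g) (by
    intro t ht
    rw [Finset.mem_image] at ht
    obtain ⟨w, hw, rfl⟩ := ht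
    rw [Set.Finite.mem_toFinset] at hw
    refine ⟨fun i => ?_, hg2 w hw.2⟩
    rw [hg1 w hw.2 i]
    have := hw.1 i
    push_cast
    constructor
    · have : 0 < w i := by omega
      exact_mod_cast this
    · rw [zero_add]
      exact_mod_cast this.2)
  rw [Finset.card_image_of_injOn hinj, ← Set.ncard_eq_toFinset_card _ hfin] at h1
  refine h1.trans ?_
  have h2 : ∀ i : Fin k, (1 + (X : ℝ) / (((0 : ℕ) : ℝ) + X) ^ c) ≤ 2 * (X : ℝ) ^ (1 - c') := by
    intro i
    have h3 : (1 : ℝ) ≤ (X : ℝ) ^ (1 - c') := Real.one_le_rpow hX1 (by linarith)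
    have h4 : (X : ℝ) / (((0 : ℕ) : ℝ) + X) ^ c ≤ (X : ℝ) ^ (1 - c') := by
      rw [Nat.cast_zero, zero_add]
      calc (X : ℝ) / (X : ℝ) ^ c = (X : ℝ) ^ (1 - c) := by
            rw [Real.rpow_sub hX0, Real.rpow_one]
        _ ≤ _ := Real.rpow_le_rpow_of_exponent_le hX1 (by linarith)
    linarith
  have h5 : (∑ _i : Fin k, (1 + (X : ℝ) / (((0 : ℕ) : ℝ) + X) ^ c)) ≤ k * (2 * (X : ℝ) ^ (1 - c')) := by
    refine (Finset.sum_le_sum fun i _ => h2 i).trans ?_
    rw [Finset.sum_const, Finset.card_univ, Fintype.card_fin, nsmul_eq_mul]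
  calc C * (X : ℝ) ^ (k - 1) * ∑ _i : Fin k, (1 + (X : ℝ) / (((0 : ℕ) : ℝ) + X) ^ c)
      ≤ C * (X : ℝ) ^ (k - 1) * (k * (2 * (X : ℝ) ^ (1 - c'))) := by gcongr
    _ = C * (k * 2) * ((X : ℝ) ^ ((k : ℝ) - 1) * (X : ℝ) ^ (1 - c')) := by
        rw [← Real.rpow_natCast (X : ℝ) (k - 1), Nat.cast_sub hk, Nat.cast_one]
        ring
    _ = C * (k * 2) * (X : ℝ) ^ ((k : ℝ) - c') := by
        rw [← Real.rpow_add hX0]
        congr 2
        ring

end Pool.Agent.Results.MP_47914d_nt.ThinTuples
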